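import Pool.Agent.Helper92.Ru.GoalsR

set_option autoImplicit false

open MvPolynomial

namespace Pool.Agent.Helper75.Ru

open Pool.Agent.Helper92.Ru

/-- the Euler operator multiplies the coefficient of `t ^ e` by `e h` -/
theorem coeff_X_mul_pderiv {k : Type} [Field k] {σ : Type} (h : σ) (p : MvPolynomial σ k)
    (e : σ →₀ ℕ) : coeff e (X h * pderiv h p) = (e h : k) * coeff e p := by
  classical
  rw [coeff_X_mul']
  split_ifs with he
  · rw [coeff_pderiv]
    have h1 : e h ≠ 0 := Finsupp.mem_support_iff.1 he
    have h2 : e - Finsupp.single h 1 + Finsupp.single h 1 = e := by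
      apply tsub_add_cancel_of_le
      rw [Finsupp.single_le_iff]
      omega
    rw [h2]
    have h3 : ((e - Finsupp.single h 1 : σ →₀ ℕ) h : k) + 1 = (e h : k) := by
      rw [Finsupp.tsub_apply, Finsupp.single_eq_same]
      have h4 : 1 ≤ e h := by omega
      rw [Nat.cast_sub h4]
      simp
    rw [h3, mul_comm]
  · have h1 : e h = 0 := by
      by_contra hc
      exact he (Finsupp.mem_support_iff.2 hc)
    rw [h1]
    simp

theorem propConst : PropConst := by
  classical
  intro k _ _ σ _ N D hD hND
  let _ : LinearOrder σ := LinearOrder.lift' (Fintype.equivFin σ) (Fintype.equivFin σ).injective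
  let m : MonomialOrder σ := MonomialOrder.lex
  have hDa : coeff (m.degree D) D ≠ 0 := m.coeff_degree_ne_zero_iff.2 hD
  refine ⟨coeff (m.degree D) N / coeff (m.degree D) D, ?_⟩
  set c := coeff (m.degree D) N / coeff (m.degree D) D with hc
  have hM0 : coeff (m.degree D) (N - C c * D) = 0 := by
    rw [coeff_sub, coeff_C_mul, hc, div_mul_cancel₀ _ hDa, sub_self]
  have hM1 : ∀ h, D * pderiv h (N - C c * D) = (N - C c * D) * pderiv h D := by
    intro h
    rw [map_sub, pderiv_C_mul, mul_sub, sub_mul, hND h]
    ring
  rw [← sub_eq_zero]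
  generalize N - C c * D = M at hM0 hM1
  by_contra hM
  have hMb : coeff (m.degree M) M ≠ 0 := m.coeff_degree_ne_zero_iff.2 hM
  have hsub : ∀ (p : MvPolynomial σ k) (h : σ),
      m.toSyn (m.degree (X h * pderiv h p)) ≤ m.toSyn (m.degree p) := by
    intro p h
    rw [MonomialOrder.degree_le_iff]
    intro e he
    apply m.le_degree
    rw [mem_support_iff] at he ⊢
    intro h0
    apply he
    rw [coeff_X_mul_pderiv, h0, mul_zero]
  have key : ∀ h, m.degree M h = m.degree D h := by
    intro h
    have h1 : D * (X h * pderiv h M) = (X h * pderiv h D) * M := by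
      have := hM1 h
      linear_combination X h * this
    have h2 := congrArg (coeff (m.degree D + m.degree M)) h1
    rw [m.coeff_mul_of_add_of_degree_le le_rfl (hsub M h),
      m.coeff_mul_of_add_of_degree_le (hsub D h) le_rfl, coeff_X_mul_pderiv,
      coeff_X_mul_pderiv] at h2
    have h3 : ((m.degree M h : k) - (m.degree D h : k)) *
        (coeff (m.degree D) D * coeff (m.degree M) M) = 0 := by
      linear_combination h2
    rcases mul_eq_zero.1 h3 with h4 | h4
    · have h5 : (m.degree M h : k) = (m.degree D h : k) := sub_eq_zero.1 h4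
      exact_mod_cast h5
    · rcases mul_eq_zero.1 h4 with h5 | h5
      · exact absurd h5 hDa
      · exact absurd h5 hMb
  have h6 : m.degree M = m.degree D := Finsupp.ext key
  rw [← h6] at hM0
  exact hMb hM0

end Pool.Agent.Helper75.Ru
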